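import Pool.Agent.Helper30.MonoCoverUpper3

/-!
# Q2: some dense point sets have linear monotone path covers

Idea.  Take the `N × N` grid and move the point `(x, y)` by `δ (x² + y²) (1, N)`.  For a direction
almost orthogonal to a primitive slope `s`, the points of each grid line of slope `s` are
consecutive in the order of the projections, and inside a line they are ordered by the distance to
a common centre.  Sorting all the points in `O(N / |s|)` directions almost orthogonal to `s` gives
monotone paths that contain every pair of points whose difference is a multiple of `s`; summing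
over `s` gives `O(N²)` paths.
-/

open Filter

namespace Pool.Agent.Results.MP_9c8b61_co.DenseLinear

open Pool.Agent.Helper30.MonoCover

/-- There are constants `α, C > 0` such that for every `n ≥ 1` some `α`-dense `n`-point set in
general position has `mc ≤ C n`.  Hence the statement of Q2 (for every `α > 0` the minimum of
`mc (A) / n` over the `α`-dense `n`-point sets `A` in general position tends to infinity) is
false. -/
theorem result :
    (∃ α C : ℝ, 0 < α ∧ 0 < C ∧ ∀ n : ℕ, 1 ≤ n → ∃ A : Finset Plane, A.card = n ∧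
      GeneralPosition A ∧ IsDense α A ∧ (mc A : ℝ) ≤ C * n) ∧
    ¬ (∀ α : ℝ, 0 < α → ∀ K : ℝ, ∀ᶠ n : ℕ in atTop, ∀ A : Finset Plane, A.card = n →
      GeneralPosition A → IsDense α A → K ≤ (mc A : ℝ) / n) := by
  have main : ∀ n : ℕ, 1 ≤ n → ∃ A : Finset Plane, A.card = n ∧
      GeneralPosition A ∧ IsDense 8 A ∧ (mc A : ℝ) ≤ 264 * n := by
    intro n hn
    have hs : 1 ≤ n.sqrt := by
      rw [Nat.le_sqrt]; omega
    have Q : QParams (n.sqrt + 1) (1 / (100 * ((n.sqrt + 1 : ℕ) : ℝ) ^ 4)) :=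
      ⟨by omega, rfl⟩
    obtain ⟨A, hA1, hA2, _, hA4⟩ := exists_dense_subset n hn _ Q.pos gquad
      (2 * ((n.sqrt + 1 : ℕ) : ℝ) ^ 2) (fun x y h1 h2 h3 h4 => gquad_le h1 h2 h3 h4) Q.small
    refine ⟨A, hA1, ?_, hA4, ?_⟩
    · apply gp_of_det (n.sqrt + 1) _ Q.pos gquad (2 * ((n.sqrt + 1 : ℕ) : ℝ) ^ 2)
        (fun x y h1 h2 h3 h4 => gquad_le h1 h2 h3 h4) Q.small ?_ A hA2
      intro x1 y1 x2 y2 x3 y3 a1 a2 a3 a4 b1 b2 b3 b4 c1 c2 c3 c4 n12 n13 n23 h0
      exact gquad_det x1 y1 x2 y2 x3 y3 a3 a4 b3 b4 n12 n13 n23 h0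
    · have h1 := mc_le_quad Q hA2
      have h2 : n.sqrt * n.sqrt ≤ n := Nat.sqrt_le n
      have h3 : mc A ≤ 264 * n := by nlinarith
      exact_mod_cast h3
  refine ⟨⟨8, 264, by norm_num, by norm_num, main⟩, ?_⟩
  intro hcon
  have h := hcon 8 (by norm_num) 265
  obtain ⟨n, hn, hn1⟩ := (h.and (eventually_ge_atTop 1)).exists
  obtain ⟨A, hA1, hA2, hA3, hA4⟩ := main n hn1
  have h1 := hn A hA1 hA2 hA3
  have h2 : (0 : ℝ) < n := by exact_mod_cast hn1
  rw [le_div_iff₀ h2] at h1
  linarith

end Pool.Agent.Results.MP_9c8b61_co.DenseLinear
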