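import Pool.Agent.Helper30.MonoCoverFinal

/-!
# Q1: dense point sets with superlinear monotone path covers

Idea.  Take the `N × N` grid and move the point `(x, y)` by `δ M ^ (N x + y) (1, N)`.  Every grid
line of every slope becomes an exponentially curved arc, and along such an arc a monotone path has
at most four edges crossing a given gap.  Give an edge from `x < L` to `x' ∈ [2L, 3L)` (`L ≈ N / 4`)
inside a line of primitive slope `(p, q)`, `0 ≤ q < p ≤ L`, the weight `1 / (L p)`.  A path monotone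
in direction `u` can be nearly orthogonal to one slope only, which contributes `O(1)`; for all the
other slopes the weight of an edge is controlled by its projected length, and the projected lengths
add up to at most the diameter.  So every monotone path has weight at most `136`, while the total
weight is at least `L² log (L + 1) / 4`.
-/

open Filter

namespace Pool.Agent.Results.MP_9c8b61_co.DenseSuperlinear

open Pool.Agent.Helper30.MonoCover

/-- There are a constant `α > 0` and `α`-dense `n`-point sets `A n` in general position (for all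
`n ≥ 1`) with `mc (A n) ≥ c n log n` for all large `n`; in particular `mc (A n) / n → ∞`. -/
theorem result : ∃ α c : ℝ, 0 < α ∧ 0 < c ∧ ∃ A : ℕ → Finset Plane,
    (∀ n : ℕ, 1 ≤ n → (A n).card = n ∧ GeneralPosition (A n) ∧ IsDense α (A n)) ∧
    (∀ᶠ n : ℕ in atTop, c * (n * Real.log n) ≤ mc (A n)) ∧
    Tendsto (fun n : ℕ => (mc (A n) : ℝ) / n) atTop atTop := by
  classical
  -- parameters
  let N : ℕ → ℕ := fun n => n.sqrt + 1
  let M : ℕ → ℕ := fun n => 4 * (N n) ^ 2 + 1
  let δ : ℕ → ℝ := fun n => 1 / (16 * (N n : ℝ) ^ 3 * (M n : ℝ) ^ ((N n) ^ 2))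
  have hMpos : ∀ n, (1 : ℕ) ≤ M n := fun n => by simp only [M]; omega
  have hGpos : ∀ n, (0 : ℝ) < (M n : ℝ) ^ ((N n) ^ 2) := by
    intro n
    have : (0 : ℝ) < M n := by exact_mod_cast hMpos n
    positivity
  have hNpos : ∀ n, (0 : ℝ) < (N n : ℝ) := by
    intro n
    have : 0 < N n := by simp only [N]; omega
    exact_mod_cast this
  have hδpos : ∀ n, 0 < δ n := by
    intro n
    have := hGpos n
    have := hNpos n
    simp only [δ]
    positivity
  have hsmall : ∀ n, 1 ≤ n → δ n * (8 * (N n : ℝ) ^ 2 * (M n : ℝ) ^ ((N n) ^ 2)) < 1 := by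
    intro n hn
    have h1 := hGpos n
    have h2 := hNpos n
    have h3 : (1 : ℝ) ≤ N n := by
      have : 1 ≤ N n := by simp only [N]; omega
      exact_mod_cast this
    have : δ n * (8 * (N n : ℝ) ^ 2 * (M n : ℝ) ^ ((N n) ^ 2)) = 1 / (2 * (N n : ℝ)) := by
      simp only [δ]
      field_simp
      norm_num
    rw [this, div_lt_one (by positivity)]
    linarith
  have hex : ∀ n : ℕ, ∃ A : Finset Plane, 1 ≤ n → (A.card = n ∧
      (∀ v ∈ A, ∃ x y : ℤ, (0 ≤ x ∧ x < (N n : ℕ) ∧ 0 ≤ y ∧ y < (N n : ℕ)) ∧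
        v = gpt (N n) (δ n) (gexp (N n) (M n)) x y) ∧
      (∀ x y : ℤ, 0 ≤ x → x < (N n : ℕ) - 1 → 0 ≤ y → y < (N n : ℕ) - 1 →
        gpt (N n) (δ n) (gexp (N n) (M n)) x y ∈ A) ∧ IsDense 8 A) := by
    intro n
    by_cases hn : 1 ≤ n
    · obtain ⟨A, hA⟩ := exists_dense_subset n hn (δ n) (hδpos n) (gexp (N n) (M n))
        ((M n : ℝ) ^ ((N n) ^ 2)) (fun x y h1 h2 h3 h4 => gexp_le (hMpos n) h1 h2 h3 h4)
        (hsmall n hn)
      exact ⟨A, fun _ => hA⟩
    · exact ⟨∅, fun h => absurd h hn⟩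
  choose A hA using hex
  have hbound : ∀ᶠ n : ℕ in atTop, (1 / 140000 : ℝ) * (n * Real.log n) ≤ mc (A n) := by
    filter_upwards [eventually_ge_atTop (8 ^ 4)] with n hn
    have hn1 : 1 ≤ n := by omega
    obtain ⟨hA1, hA2, hA3, _⟩ := hA n hn1
    set L := n.sqrt / 4 with hL
    have hs : 64 ≤ n.sqrt := by
      rw [Nat.le_sqrt]; omega
    have P : Params (N n) L (M n) (δ n) := by
      refine ⟨by omega, ?_, ?_, rfl, rfl⟩
      · simp only [N]; omega
      · simp only [N]; omega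
    have hmc := mc_ge P hA2 hA3
    -- n ≤ 64 L ^ 2
    have hnL : n ≤ 64 * L ^ 2 := by
      have h1 : n.sqrt + 1 ≤ 8 * L := by omega
      have h2 := Nat.lt_succ_sqrt n
      have h3 : (n.sqrt + 1) * (n.sqrt + 1) ≤ (8 * L) * (8 * L) := Nat.mul_le_mul h1 h1
      have h4 : Nat.succ n.sqrt = n.sqrt + 1 := rfl
      rw [h4] at h2
      nlinarith
    have hnL' : (n : ℝ) ≤ 64 * (L : ℝ) ^ 2 := by exact_mod_cast hnL
    -- n ≤ L ^ 4, since 64 L ^ 2 ≤ L ^ 4 for L ≥ 8
    have hL8 : (8 : ℝ) ≤ L := by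
      have : 8 ≤ L := by omega
      exact_mod_cast this
    have hlog : Real.log n ≤ 4 * Real.log (L + 1) := by
      have h1 : (n : ℝ) ≤ (L + 1 : ℝ) ^ 4 := by
        have h64 : (64 : ℝ) ≤ (L : ℝ) ^ 2 := by nlinarith
        have : 64 * (L : ℝ) ^ 2 ≤ (L : ℝ) ^ 4 := by
          calc 64 * (L : ℝ) ^ 2 ≤ (L : ℝ) ^ 2 * (L : ℝ) ^ 2 :=
                mul_le_mul_of_nonneg_right h64 (by positivity)
            _ = (L : ℝ) ^ 4 := by ring
        have : (L : ℝ) ^ 4 ≤ (L + 1 : ℝ) ^ 4 := by gcongr; linarith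
        linarith
      have h2 : (0 : ℝ) < n := by exact_mod_cast hn1
      calc Real.log n ≤ Real.log ((L + 1 : ℝ) ^ 4) := Real.log_le_log h2 h1
        _ = 4 * Real.log (L + 1) := by rw [Real.log_pow]; norm_num
    have hlog0 : 0 ≤ Real.log n := Real.log_natCast_nonneg n
    have hlogL : 0 ≤ Real.log ((L : ℝ) + 1) := by linarith
    have hL2 : (0 : ℝ) ≤ (L : ℝ) ^ 2 := by positivity
    have hprod : (n : ℝ) * Real.log n ≤ 64 * (L : ℝ) ^ 2 * (4 * Real.log (L + 1)) :=
      mul_le_mul hnL' hlog hlog0 (by positivity)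
    linarith
  refine ⟨8, 1 / 140000, by norm_num, by norm_num, A, ?_, hbound, ?_⟩
  · intro n hn
    obtain ⟨hA1, hA2, hA3, hA4⟩ := hA n hn
    refine ⟨hA1, ?_, hA4⟩
    apply gp_of_det (N n) (δ n) (hδpos n) (gexp (N n) (M n)) ((M n : ℝ) ^ ((N n) ^ 2))
      (fun x y h1 h2 h3 h4 => gexp_le (hMpos n) h1 h2 h3 h4) (hsmall n hn) ?_ (A n) hA2
    intro x1 y1 x2 y2 x3 y3 a1 a2 a3 a4 b1 b2 b3 b4 c1 c2 c3 c4 n12 n13 n23 _
    exact gexp_det (by simp only [N]; omega) rfl x1 y1 x2 y2 x3 y3 a1 a2 a3 a4 b1 b2 b3 b4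
      c1 c2 c3 c4 n12 n13 n23
  · have hlogt : Tendsto (fun n : ℕ => (1 / 140000 : ℝ) * Real.log n) atTop atTop :=
      (Real.tendsto_log_atTop.comp tendsto_natCast_atTop_atTop).const_mul_atTop (by norm_num)
    refine tendsto_atTop_mono' atTop ?_ hlogt
    filter_upwards [hbound, eventually_ge_atTop 1] with n hn hn1
    have h2 : (0 : ℝ) < n := by exact_mod_cast hn1
    rw [le_div_iff₀ h2]
    linarith

end Pool.Agent.Results.MP_9c8b61_co.DenseSuperlinear
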